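import Pool.Agent.W942.AvG

/-!
# Average-case bounds for the permanent against formulas, circuits and networks with determinants

For every `n` we exhibit a probability distribution on `n × n` matrices with entries `0, 1, -1` and
permanents `± 2 ^ (17 ⌊n / 36⌋)`, such that real polynomials computed in the following models, in
which the `n × n` determinant is a single gate, have exponentially small (formulas: superpolynomially
small) correlation with the permanent.

* `DetCircuit ℝ n s` (file `Pool/Agent/W942/Circ.lean`): circuits with `s` nodes. A leaf is an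
  arbitrary polynomial in the variables of one row of the `n × n` matrix `X` of variables. Every other
  node is the determinant of a square matrix, of any order, the entries of which are linear
  combinations of `1` and of nodes of smaller depth; the nodes used in different rows of the matrix
  involve disjoint sets of rows of `X`.
* `Net ℝ n m` (file `Pool/Agent/W942/Net.lean`): tree-structured networks with `m` outputs. A leaf
  carries `m` arbitrary polynomials. A node has `M` subnetworks, `M` arbitrary, with vectors
  `g_1, ..., g_M` of outputs, and each of the outputs of the node is the sum of `c` determinants of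
  `M × M` matrices whose `a`-th row consists of linear combinations of the entries of the vector
  `g_a`. `Φ.Valid w z`: every leaf has variables from fewer than `z` rows of `X`, every node has at
  most `w` outputs and `c ≤ w`, and different subnetworks of a node have disjoint sets of rows of `X`.
* `Formula ℝ n` (file `Pool/Agent/W942/Form.lean`): constants, leaves (an arbitrary polynomial),
  binary sums and products, and determinants of square matrices, of any order, of formulas.
  `Formula.size` counts the leaves and the gates. `Formula.RowDisjoint t`: each leaf is a polynomial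
  in the variables of at most `t` rows of `X`, the factors of a product involve disjoint sets of rows
  of `X`, and entries of a determinant gate in different rows of its matrix involve disjoint sets of
  rows of `X`.

`Uncorrelated μ A p ε` (file `Pool/Agent/W942/AvG.lean`) means, for a random matrix `A`, that
`(E[p(A) per(A)]) ^ 2 ≤ ε * E[p(A) ^ 2] * E[per(A) ^ 2]` and that
`E[(p(A) - per(A)) ^ 2] ≥ (1 - ε) * E[per(A) ^ 2]`.
-/

set_option autoImplicit false

namespace Pool.Agent.Results.MP_499dc6_lc.AverageCase

open MvPolynomial Pool.Agent.W942 Pool.Agent.W942.Av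

/-- For every `n` there is a probability distribution on the `n × n` matrices with entries `0, 1, -1`
and with permanents `± 2 ^ (17 ⌊n / 36⌋)` such that (1) linear combinations of `1` and of nodes of
depth at most `d` of circuits of determinants with `s` nodes, (2) sums of `s` networks of width at
most `2 ^ q`, the leaves of which have fewer than `z ≥ 10 ^ 6 * q ^ 2` rows, or (3) of width at most
`w` and with leaves with fewer than `10 ^ 6` rows, and (4) row-disjoint formulas with determinant
gates, with leaves in at most `n ^ (1 - δ)` rows, do not correlate with the permanent. -/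
theorem result (n : ℕ) : ∃ (Ω : Type) (_ : Fintype Ω) (μ : Ω → ℝ)
    (A : Ω → Matrix (Fin n) (Fin n) ℤ),
    ((∀ ω, 0 ≤ μ ω) ∧ ∑ ω, μ ω = 1 ∧ (∀ ω i j, A ω i j = -1 ∨ A ω i j = 0 ∨ A ω i j = 1) ∧
      ∀ ω, |(A ω).permanent| = 2 ^ (17 * (n / 36))) ∧
    (∀ (s d : ℕ), 1 ≤ d → ∀ (D : DetCircuit ℝ n s) (c : ℝ) (b : Fin s → ℝ),
      (∀ j, b j ≠ 0 → D.depth j ≤ d) →
        Uncorrelated μ A (C c + ∑ j, C (b j) * D.poly j)
          (((n : ℝ) + 1) ^ 2 * ((s : ℝ) + 2) ^ d * Real.exp (-((n : ℝ) ^ (1 / (d : ℝ)) / 200)))) ∧
    (∀ (s w z q : ℕ), 1 ≤ q → w ≤ 2 ^ q → 10 ^ 6 * q ^ 2 ≤ z →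
      ∀ Φ : Fin s → Net ℝ n 1, (∀ i, (Φ i).Valid w z) →
        Uncorrelated μ A (∑ i, (Φ i).poly 0)
          (2 * ((n : ℝ) + 1) ^ 2 * s * Real.exp (-((n : ℝ) / (8 * z))))) ∧
    (∀ (s w : ℕ), 1 ≤ w → ∀ Φ : Fin s → Net ℝ n 1, (∀ i, (Φ i).Valid w (10 ^ 6)) →
        Uncorrelated μ A (∑ i, (Φ i).poly 0)
          (2 * ((n : ℝ) + 1) ^ 2 * (s * w) * Real.exp (-((n : ℝ) ^ (1 / 3 : ℝ) / 300)))) ∧
    (∀ δ : ℝ, 0 < δ → δ ≤ 1 → Real.exp (100000 / δ) ≤ n → ∀ (t : ℕ) (Φ : Formula ℝ n),
      (t : ℝ) ≤ (n : ℝ) ^ (1 - δ) → Φ.RowDisjoint t →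
        Uncorrelated μ A Φ.poly ((Φ.size + 1) / (n : ℝ) ^ (δ / 10000 * Real.log n))) := by
  refine ⟨Smp n, inferInstance, mu, tmat, ⟨mu_nonneg, mu_sum n, tmat_entries, fun ω => ?_⟩,
    fun s d hd D c b hb => ?_, fun s w z q hq hw hz Φ hΦ => net_unc hq hw hz Φ hΦ,
    fun s w hw Φ hΦ => net_unc_cube hw Φ hΦ,
    fun δ hδ hδ1 hn t Φ ht hΦ => formula_unc δ hδ hδ1 hn t ht Φ hΦ⟩
  · have h := tmat_per_sq ω
    have h2 : |(tmat ω).permanent| = |(2 ^ (17 * kk n) : ℤ)| := (sq_eq_sq_iff_abs_eq_abs _ _).1 h
    rw [h2, abs_of_pos (by positivity)]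
    rfl
  · obtain ⟨k, rfl⟩ : ∃ k, d = k + 1 := ⟨d - 1, by omega⟩
    have h := circuit_unc k D c b hb
    push_cast
    exact h

end Pool.Agent.Results.MP_499dc6_lc.AverageCase
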