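import Mathlib
import Pool.Agent.W463.CT.Two
import Pool.Agent.W463.CT.Asym
import Pool.Agent.W463.CT.DetUp

set_option autoImplicit false

/-!
The cancellation threshold of the permanent and of the determinant.

The mass of a circuit is the sum of the absolute values of all monomials before cancellation. The
permanent and the determinant have `n !` monomials. Circuits with at most `2 ^ (c n)`
multiplications which compute one of them have mass at least `((1 - ε) n) ^ n`, and the determinant
has circuits with `12 n ^ 4` nodes and mass exactly `n ^ n`.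
-/

namespace Pool.Agent.Results.MP_499dc6_lc.CancellationThreshold

open MvPolynomial Finset
open Pool.Agent.H567.Nec Pool.Agent.H691R2.MM
open Pool.Agent.W463.CT

universe u

/-- The `n × n` matrix of variables. -/
noncomputable def gen (K : Type u) [Field K] (n : ℕ) :
    Matrix (Fin n) (Fin n) (MvPolynomial (Fin n × Fin n) K) :=
  Matrix.of fun i j => X (i, j)

lemma mono_injective (n : ℕ) : Function.Injective (mono (n := n)) := by
  intro σ τ h
  ext i
  have h1 := congrArg (fun m => m (i, σ i)) h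
  simp only [mono_apply, if_true] at h1
  by_contra hne
  rw [if_neg (fun h2 => hne (congrArg Fin.val h2.symm))] at h1
  exact one_ne_zero h1

lemma prod_gen (K : Type u) [Field K] (n : ℕ) (τ : Equiv.Perm (Fin n)) :
    ∏ i, gen K n (τ i) i = monomial (mono τ⁻¹) 1 := by
  have h1 : ∏ i, gen K n (τ i) i = ∏ i, (X (i, τ⁻¹ i) : MvPolynomial (Fin n × Fin n) K) := by
    rw [← Equiv.prod_comp τ (fun i => (X (i, τ⁻¹ i) : MvPolynomial (Fin n × Fin n) K))]
    refine Finset.prod_congr rfl fun i _ => ?_
    simp [gen]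
  rw [h1]
  unfold mono
  rw [monomial_finsupp_sum_index_aux]
where
  monomial_finsupp_sum_index_aux {K : Type u} [Field K] {n : ℕ} {τ : Equiv.Perm (Fin n)} :
      ∏ i, (X (i, τ⁻¹ i) : MvPolynomial (Fin n × Fin n) K) =
      monomial (∑ i, Finsupp.single (i, τ⁻¹ i) 1) 1 := by
    classical
    have : ∀ s : Finset (Fin n), ∏ i ∈ s, (X (i, τ⁻¹ i) : MvPolynomial (Fin n × Fin n) K) =
        monomial (∑ i ∈ s, Finsupp.single (i, τ⁻¹ i) 1) 1 := by
      intro s
      induction s using Finset.induction_on with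
      | empty => simp
      | insert a s ha ih =>
        rw [Finset.prod_insert ha, Finset.sum_insert ha, ih, X, monomial_mul, mul_one]
    exact this Finset.univ

lemma coeff_permanent (K : Type u) [Field K] (n : ℕ) (σ : Equiv.Perm (Fin n)) :
    (gen K n).permanent.coeff (mono σ) = 1 := by
  classical
  rw [Matrix.permanent, coeff_sum]
  simp only [prod_gen, coeff_monomial]
  rw [Finset.sum_eq_single σ⁻¹]
  · simp
  · intro τ _ hτ
    rw [if_neg]
    intro h
    apply hτ
    rw [← mono_injective n h, inv_inv]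
  · intro h; exact absurd (Finset.mem_univ _) h

lemma coeff_det (K : Type u) [Field K] (n : ℕ) (σ : Equiv.Perm (Fin n)) :
    (gen K n).det.coeff (mono σ) = 1 ∨ (gen K n).det.coeff (mono σ) = -1 := by
  classical
  rw [Matrix.det_apply, coeff_sum]
  simp only [prod_gen]
  rw [Finset.sum_eq_single σ⁻¹]
  · rcases Int.units_eq_one_or (Equiv.Perm.sign σ⁻¹) with h | h
    · left; rw [h]; simp
    · right; rw [h]; simp
  · intro τ _ hτ
    have h0 : coeff (mono σ) (monomial (mono τ⁻¹) (1 : K)) = 0 := by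
      rw [coeff_monomial, if_neg]
      intro h
      apply hτ
      rw [← mono_injective n h, inv_inv]
    rcases Int.units_eq_one_or (Equiv.Perm.sign τ) with h | h
    · rw [h, one_smul, h0]
    · rw [h, Units.neg_smul, one_smul, coeff_neg, h0, neg_zero]
  · intro h; exact absurd (Finset.mem_univ _) h

/-- **Main theorem.** -/
theorem result :
    -- circuits with at most `2 ^ (c n)` multiplications have mass at least `((1 - ε) n) ^ n`
    (∀ ε : ℝ, 0 < ε → ε < 1 → ∃ c : ℝ, 0 < c ∧ ∃ n₀ : ℕ, ∀ n : ℕ, n₀ ≤ n →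
      ∀ (K : Type u) [Field K] (w : AbsoluteValue K ℝ) (Φ : Circuit K (Fin n × Fin n))
        (o : Fin Φ.N), ((mulGates Φ).card : ℝ) ≤ 2 ^ (c * n) →
        (Φ.value o = (gen K n).permanent ∨ Φ.value o = (gen K n).det →
          ((1 - ε) * n) ^ n ≤ cost w Φ o) ∧
        (∀ P : Finset (Equiv.Perm (Fin n)), 2 ^ (-(c * n)) * (n.factorial : ℝ) ≤ P.card →
          (∀ σ ∈ P, 1 ≤ w ((Φ.value o).coeff (∑ i, Finsupp.single (i, σ i) 1))) →
          ((1 - ε) * n) ^ n ≤ cost w Φ o)) ∧
    -- an inequality for circuits of all sizes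
    (∀ (n : ℕ), 2 ≤ n → ∀ (K : Type u) [Field K] (w : AbsoluteValue K ℝ)
      (Φ : Circuit K (Fin n × Fin n)) (o : Fin Φ.N) (P : Finset (Equiv.Perm (Fin n))),
      (∀ σ ∈ P, 1 ≤ w ((Φ.value o).coeff (∑ i, Finsupp.single (i, σ i) 1))) →
      (P.card : ℝ) ^ 2 * (n.choose ((n + 2) / 3) : ℝ) ≤
        (mulGates Φ).card * ((n : ℝ) + 1) ^ 2 * n.factorial * cost w Φ o) ∧
    -- sharpness: the determinant
    (∀ (w : AbsoluteValue ℂ ℝ), (∀ z, w z = ‖z‖) → ∀ n : ℕ, 1 ≤ n →
      ∃ (Φ : Circuit ℂ (Fin n × Fin n)) (o : Fin Φ.N), Φ.N ≤ 12 * n ^ 4 ∧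
        Φ.value o = (gen ℂ n).det ∧ cost w Φ o = (n : ℝ) ^ n) := by
  refine ⟨?_, ?_, ?_⟩
  · intro ε hε0 hε1
    obtain ⟨c, hc, n₀, h⟩ := threshold.{u} ε hε0 hε1
    refine ⟨c, hc, n₀, ?_⟩
    intro n hn K _ w Φ o hr
    refine ⟨?_, fun P hP1 hP2 => h n hn K w Φ o P hr hP1 hP2⟩
    intro hval
    refine h n hn K w Φ o Finset.univ hr ?_ ?_
    · rw [Finset.card_univ, Fintype.card_perm, Fintype.card_fin]
      have h1 : (2 : ℝ) ^ (-(c * n)) ≤ 1 := by
        apply Real.rpow_le_one_of_one_le_of_nonpos (by norm_num)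
        have : 0 ≤ c * n := by positivity
        linarith
      have h2 : (0 : ℝ) ≤ n.factorial := Nat.cast_nonneg _
      nlinarith
    · intro σ _
      rcases hval with h1 | h1
      · rw [h1, coeff_permanent, map_one]
      · rw [h1]
        rcases coeff_det K n σ with h2 | h2
        · rw [h2, map_one]
        · rw [h2, AbsoluteValue.map_neg, map_one]
  · intro n hn K _ w Φ o P hP
    exact tradeoff w Φ hn o P hP
  · intro w hw n hn
    exact DetUp.det_circuit w hw n hn

end Pool.Agent.Results.MP_499dc6_lc.CancellationThreshold
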