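import Pool.Agent.W942.NsCor

/-!
# The permanent and programs of nested determinants with free algebraic functions

`DetProgram R z` (file `Pool/Agent/W942/NsFin.lean`): the element `z` of the field `K(X)` of rational
functions in the entries of the `n × n` matrix `X` of variables is the last result of a program with
results `q_0, q_1, …`. Every result is the determinant of a square matrix, of any order, and every
line of such a matrix is

* either free: all its entries are separable algebraic over the field generated by the previous
  results (`Avail q j none`; for instance any rational functions of the previous results),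
* or reads one row `ρ` of `X`: all its entries are separable algebraic over the field generated by
  the previous results and by the variables of the row `ρ` (`Avail q j (some ρ)`).

At most `R` lines, in all determinants together, read a row of `X`; the number and the orders of the
determinants are not bounded, and a determinant all lines of which are free costs nothing, so that
arbitrary algebraic functions of the previous results are free (determinants of order one).

`perF K n` and `detF K n` (file `Pool/Agent/W942/AlgCor.lean`) are the permanent and the determinant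
of `X` as elements of `K(X)`.
-/

set_option autoImplicit false

namespace Pool.Agent.Results.MP_499dc6_lc.DeterminantPrograms

open MvPolynomial Pool.Agent.W942.Alg Pool.Agent.W942.Ns

universe u

/-- Let `K` be a field of characteristic different from two. If the `n × n` permanent is a sum of `s`
results of programs with `R_i` reading lines, then for even `D` with `D k ≤ n` one has
`D ^ k * (n + 1 - 2 k) ^ (2 k) ≤ ∑ (16 k ^ 4 R_i ^ 2) ^ k`, and hence `s ≥ 2 ^ k` if `R_i ≤ R₀` and
`256 k ^ 5 R₀ ^ 2 ≤ n ^ 3`. One program for the permanent needs `16 R ^ 2 ≥ n (n - 1) ^ 2`. In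
contrast the determinant has a program with `n` reading lines (a single instruction), and every
element of `K(X)` one with `n ^ 2` reading lines. -/
theorem result :
    (∀ {K : Type u} [Field K], (2 : K) ≠ 0 → ∀ (n s : ℕ), 0 < n →
      ∀ (z : Fin s → FractionRing (MvPolynomial (Fin n × Fin n) K)) (R : Fin s → ℕ),
      (∀ i, DetProgram (R i) (z i)) → ∑ i, z i = perF K n →
      (∀ D k : ℕ, Even D → D * k ≤ n → D ^ k * (n + 1 - 2 * k) ^ (2 * k) ≤
        ∑ i, (16 * k ^ 4 * R i ^ 2) ^ k) ∧
      (∀ k R0 : ℕ, (∀ i, R i ≤ R0) → 0 < R0 → 256 * k ^ 5 * R0 ^ 2 ≤ n ^ 3 → 2 ^ k ≤ s)) ∧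
    (∀ {K : Type u} [Field K], (2 : K) ≠ 0 → ∀ (n R : ℕ), DetProgram R (perF K n) →
      n * (n - 1) ^ 2 ≤ 16 * R ^ 2) ∧
    (∀ {K : Type u} [Field K] (n : ℕ), DetProgram n (detF K n) ∧
      ∀ z : FractionRing (MvPolynomial (Fin n × Fin n) K), DetProgram (n ^ 2) z) := by
  refine ⟨?_, fun hF n R h => nest_one hF h, fun n => ⟨detProgram_det, detProgram_all⟩⟩
  intro K _ hF n s hn z R hz hsum
  have hmain := nest_main hF z R hz hsum
  refine ⟨fun D k hD hk => ?_, fun k R0 hR0 hR h256 => ?_⟩
  · exact (Nat.mul_le_mul_left _ (Nat.pow_sub_le_descFactorial n (2 * k))).trans (hmain D k hD hk)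
  · refine final_arithN hn hR h256 fun D k hD hk => (hmain D k hD hk).trans ?_
    calc ∑ i, (16 * k ^ 4 * R i ^ 2) ^ k ≤ ∑ _i : Fin s, (16 * k ^ 4 * R0 ^ 2) ^ k := by
          refine Finset.sum_le_sum fun i _ => Nat.pow_le_pow_left ?_ _
          exact Nat.mul_le_mul_left _ (Nat.pow_le_pow_left (hR0 i) 2)
      _ = s * (16 * k ^ 4 * R0 ^ 2) ^ k := by simp

end Pool.Agent.Results.MP_499dc6_lc.DeterminantPrograms
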